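import Pool.Agent.V11120.Maps.Comp
import Pool.Agent.TH482.HT.Defs

/-!
# Building concrete drawings from tables
-/

set_option autoImplicit false
set_option linter.unusedVariables false
set_option linter.unusedSectionVars false

namespace Pool.Agent.V11120.Build

open Equiv TH482.HT

/-- entry `i` of a table with entries of `w` bits -/
def look (N w i : ℕ) : ℕ := (N >>> (w * i)) % 2 ^ w

theorem conn_of_dep {D : Type} [Finite D] (rot rev : Perm D) (d0 : D) (dep : D → ℕ)
    (h : ∀ d, d = d0 ∨ dep (rot d) < dep d ∨ dep (rot.symm d) < dep d ∨ dep (rev d) < dep d)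
    (hrev : ∀ d, rev (rev d) = d) (s : Set D) (hs : s.Nonempty)
    (hc : ∀ d ∈ s, rot d ∈ s ∧ rev d ∈ s) : s = Set.univ := by
  have hsymm : ∀ d ∈ s, rot.symm d ∈ s := by
    intro d hd
    have h1 : rot.SameCycle d (rot.symm d) := ⟨-1, by simp⟩
    exact Maps.mem_of_sameCycle (fun x hx => (hc x hx).1) hd h1
  have hdown : ∀ n : ℕ, ∀ d ∈ s, dep d ≤ n → d0 ∈ s := by
    intro n
    induction n with
    | zero =>
      intro d hd hn
      rcases h d with h1 | h1 | h1 | h1
      · rw [← h1]; exact hd
      all_goals omega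
    | succ n ih =>
      intro d hd hn
      rcases h d with h1 | h1 | h1 | h1
      · rw [← h1]; exact hd
      · exact ih _ (hc d hd).1 (by omega)
      · exact ih _ (hsymm d hd) (by omega)
      · exact ih _ (hc d hd).2 (by omega)
  obtain ⟨e, he⟩ := hs
  have h0 : d0 ∈ s := hdown (dep e) e he le_rfl
  have hup : ∀ n : ℕ, ∀ d, dep d ≤ n → d ∈ s := by
    intro n
    induction n with
    | zero =>
      intro d hn
      rcases h d with h1 | h1 | h1 | h1
      · rw [h1]; exact h0
      all_goals omega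
    | succ n ih =>
      intro d hn
      rcases h d with h1 | h1 | h1 | h1
      · rw [h1]; exact h0
      · have := hsymm _ (ih _ (show dep (rot d) ≤ n by omega))
        simpa using this
      · have := (hc _ (ih _ (show dep (rot.symm d) ≤ n by omega))).1
        simpa using this
      · have := (hc _ (ih _ (show dep (rev d) ≤ n by omega))).2
        rwa [hrev] at this
  ext d
  exact ⟨fun _ => trivial, fun _ => hup _ d le_rfl⟩

theorem le_numOrbits {D : Type} [Finite D] (σ : Perm D) (k : ℕ) (c : D → Fin k)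
    (hinv : ∀ d, c (σ d) = c d) (s : Fin k → D) (hs : ∀ i, c (s i) = i) :
    k ≤ numOrbits σ := by
  classical
  haveI : Fintype (Quotient (Perm.SameCycle.setoid σ)) := Fintype.ofFinite _
  rw [numOrbits, Nat.card_eq_fintype_card, ← Fintype.card_fin k]
  refine Fintype.card_le_of_injective (fun i => (Quotient.mk _ (s i) : Quotient _)) ?_
  intro i j hij
  have h1 : σ.SameCycle (s i) (s j) := Quotient.exact hij
  have h2 := Maps.mem_of_sameCycle (T := {x | c x = c (s i)}) (by
    intro x hx
    show c (σ x) = c (s i)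
    rw [hinv]
    exact hx) rfl h1
  have h3 : c (s j) = c (s i) := h2
  rw [hs, hs] at h3
  exact h3.symm

/-- a drawing from tables -/
def mk {V : Type} (G : SimpleGraph V) (H : ℕ) (rot rev : Perm (Fin H)) (src tgt : Fin H → V)
    (pos : Fin H → ℕ) (first : V → V → Fin H) (base : V → Fin H) (ix dep : Fin H → ℕ) (d0 : Fin H)
    (c1 : ∀ d, rev (rev d) = d) (c2 : ∀ d, rev d ≠ d)
    (c3 : ∀ d, d = d0 ∨ dep (rot d) < dep d ∨ dep (rot.symm d) < dep d ∨ dep (rev d) < dep d)
    (c4 : ∀ d, G.Adj (src d) (tgt d)) (c5 : ∀ d, src (rev d) = tgt d)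
    (c6 : ∀ u v, G.Adj u v → src (first u v) = u ∧ tgt (first u v) = v ∧ pos (first u v) = 0)
    (c7 : ∀ d, pos d = 0 → first (src d) (tgt d) = d)
    (c8 : ∀ d, pos d = 0 → pos (rot d) = 0 ∧ src (rot d) = src d)
    (c9 : ∀ d, pos d = 0 → (rot^[ix d]) (base (src d)) = d)
    (c10 : ∀ d, 0 < pos d → 0 < pos (rot d) ∧ rot (rot (rot (rot d))) = d)
    (c11 : ∀ d, 0 < pos d → src (rev (rot (rot d))) = src d ∧ tgt (rev (rot (rot d))) = tgt d ∧
      pos (rev (rot (rot d))) + 1 = pos d)
    (c12 : ∀ d, 0 < pos d → ¬ (src (rot d) = src d ∧ tgt (rot d) = tgt d) ∧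
      ¬ (src (rot d) = tgt d ∧ tgt (rot d) = src d)) : Drawing G where
  D := Fin H
  fin := inferInstance
  rot := rot
  rev := rev
  rev_rev := c1
  rev_ne := c2
  conn := fun s hs hc => conn_of_dep rot rev d0 dep c3 c1 s hs hc
  src := src
  tgt := tgt
  pos := pos
  adj := c4
  src_rev := c5
  start := fun u v h => ⟨first u v, c6 u v h, by
    rintro d ⟨h1, h2, h3⟩
    have := c7 d h3
    rw [h1, h2] at this
    exact this.symm⟩
  vertex := c8
  vertex_cyclic := by
    intro d d' hd hd' hs
    have h1 : ∀ e, pos e = 0 → rot.SameCycle (base (src e)) e := by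
      intro e he
      refine ⟨(ix e : ℕ), ?_⟩
      rw [zpow_natCast, Perm.coe_pow]
      exact c9 e he
    have h2 := h1 d hd
    rw [hs] at h2
    exact h2.symm.trans (h1 d' hd')
  cross := c10
  cross_prev := c11
  cross_ne := c12

end Pool.Agent.V11120.Build
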